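import Mathlib
import Pool.Agent.H48.GS

set_option autoImplicit false

namespace Pool.Agent.Results.MP_acc225_nt.No

open Finset Filter Topology Pool.Agent.H48.GS

/-- the square `Q_N` -/
noncomputable def Q (N : ℕ) : Finset GaussianInt :=
  (Ioo (-(N : ℤ)) N ×ˢ Ioo (-(N : ℤ)) N).image (fun p => ⟨p.1, p.2⟩)

/-- the shifted square `⌊N^(1+ε)⌋ + Q_N` -/
noncomputable def Phi (ε : ℝ) (N : ℕ) : Finset GaussianInt :=
  (Q N).image (fun z => ((⌊(N : ℝ) ^ (1 + ε)⌋ : ℤ) : GaussianInt) + z)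

/-- the average of `f` over `Phi ε N` -/
noncomputable def avg (ε : ℝ) (f : GaussianInt → ℝ) (N : ℕ) : ℝ :=
  (∑ n ∈ Phi ε N, f n) / (Phi ε N).card

theorem Phi_eq (ε : ℝ) (N : ℕ) :
    Phi ε N = Sq ((⌊(N : ℝ) ^ (1 + ε)⌋ : ℤ) : GaussianInt) N := by
  unfold Phi Q Sq
  rw [image_image]; rfl

/-- the shift -/
noncomputable def sh (ε : ℝ) (N : ℕ) : ℕ := ⌊(N : ℝ) ^ (1 + ε)⌋₊

theorem sh_ge (ε : ℝ) (hε : 0 < ε) (N : ℕ) (hN : 1 ≤ N) : N ≤ sh ε N := by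
  apply Nat.le_floor
  have h : (1 : ℝ) ≤ N := by exact_mod_cast hN
  simpa using Real.rpow_le_rpow_of_exponent_le h (show (1 : ℝ) ≤ 1 + ε by linarith)

theorem nm_bd (ε : ℝ) (hε : 0 < ε) (N : ℕ) (hN : 1 ≤ N) (n : GaussianInt) (hn : n ∈ Phi ε N) :
    (sh ε N - N) ^ 2 < nm n ∧ nm n ≤ 5 * sh ε N ^ 2 := by
  rw [Phi_eq, mem_Sq, ← Int.natCast_floor_eq_floor (by positivity)] at hn
  have h1 := sh_ge ε hε N hN
  change _ < n.re - ((sh ε N : ℕ) : ℤ) ∧ n.re - ((sh ε N : ℕ) : ℤ) < _ ∧ _ < n.im - 0 ∧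
    n.im - 0 < _ at hn
  obtain ⟨m, hm⟩ : ∃ m, m = sh ε N := ⟨_, rfl⟩
  rw [← hm] at hn h1 ⊢
  obtain ⟨d, rfl⟩ := Nat.exists_eq_add_of_le h1
  rw [Nat.add_sub_cancel_left]
  push_cast at hn
  obtain ⟨a, b, c, e⟩ := hn
  constructor
  · have : (d : ℤ) ^ 2 < nm n := by rw [nm_cast]; nlinarith [mul_self_nonneg n.im]
    exact_mod_cast this
  · have : (nm n : ℤ) ≤ 5 * ((N : ℤ) + d) ^ 2 := by rw [nm_cast]; nlinarith
    exact_mod_cast this

open Classical in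
theorem smooth (ε : ℝ) (hε : 0 < ε) (a B : ℕ) (ha : 0 < a) : ∃ N, B ≤ N ∧ 1 ≤ N ∧
    (((Phi ε N).filter (fun n => ∀ q, Prime q → q ∣ n → nm q ≤ 2 * (a * N) ^ 2)).card : ℝ) ≤
      (1 - ε / (8 * (1 + ε))) * (Phi ε N).card := by
  obtain ⟨c, hc⟩ : ∃ c, c = ε / (8 * (1 + ε)) := ⟨_, rfl⟩
  have c0 : 0 < c := by rw [hc]; positivity
  have c1 : c * (8 * (1 + ε)) = ε := by rw [hc]; field_simp
  have c2 : c ≤ 1 / 8 := by nlinarith
  obtain ⟨t, ht⟩ := exists_nat_ge (16 / ε + 1)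
  have t1 : (1 : ℝ) ≤ t := by linarith [show 0 < 16 / ε by positivity]
  have t0 : 0 < t := by exact_mod_cast (show (0 : ℝ) < t by linarith)
  have t2 : ((t : ℝ) + 2) ^ 2 ≤ (1 + ε / 2) * t ^ 2 := by
    have : 16 ≤ ε * t := by
      have := (div_le_iff₀ hε).1 (show 16 / ε ≤ t by linarith)
      linarith
    nlinarith
  have hT : Tendsto (fun s : ℕ => t * s) atTop atTop :=
    tendsto_atTop_mono (fun s => Nat.le_mul_of_pos_left s t0) tendsto_id
  have hT' : Tendsto (fun N : ℕ => (N : ℝ)) atTop atTop := tendsto_natCast_atTop_atTop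
  have hY : Tendsto (fun N : ℕ => ((2 * (a * N) ^ 2 : ℕ) : ℝ)) atTop atTop :=
    hT'.comp (tendsto_atTop_mono (fun N => by
      have : N ≤ a * N := Nat.le_mul_of_pos_left N ha
      show N ≤ _
      nlinarith [Nat.le_self_pow (show 2 ≠ 0 by norm_num) (a * N)]) tendsto_id)
  obtain ⟨C, hC⟩ : ∃ C : ℝ, C = (2 * t + 1) ^ 2 * (4 * a ^ 2) * (4 + 2 * ε) := ⟨_, rfl⟩
  have e1 := hY.eventually (Chebyshev.eventually_primeCounting_le (show (0 : ℝ) < 1 / 2 by norm_num))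
  have e2 := (Real.tendsto_log_atTop.comp hT').eventually_ge_atTop
    (max 1 (2 / ε * (C / 4 + 4 * (1 + ε / 2) + 2)))
  have e3 := ((tendsto_rpow_atTop hε).comp hT').eventually_ge_atTop 4
  have e4 := hT'.eventually_ge_atTop (1 / c)
  obtain ⟨s, ⟨⟨⟨⟨k1, k2⟩, k3⟩, k4⟩, k5⟩, k6⟩ := ((hT.eventually ((((e1.and e2).and e3).and e4).and
    (eventually_ge_atTop B))).and (eventually_ge_atTop 1)).exists
  obtain ⟨N, hN⟩ : ∃ N, N = t * s := ⟨_, rfl⟩
  have N1 : 1 ≤ N := by rw [hN]; exact Nat.mul_pos t0 k6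
  have N1' : (1 : ℝ) ≤ N := by exact_mod_cast N1
  have hm := main ((⌊(N : ℝ) ^ (1 + ε)⌋ : ℤ) : GaussianInt) t s (2 * (a * N) ^ 2)
    ((sh ε N - N) ^ 2 + 1) (5 * sh ε N ^ 2) k6 (by omega)
    (by have := sh_ge ε hε N N1; have : 0 < sh ε N := by omega
        positivity)
    (by rw [← hN, ← Phi_eq]; exact nm_bd ε hε N N1)
  rw [← hN] at k1 k2 k3 k4 k5 hm
  rw [← Phi_eq] at hm
  refine ⟨N, k5, N1, ?_⟩
  simp only [Function.comp, Nat.floor_natCast, max_le_iff] at k1 k2 k3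
  obtain ⟨L, hL⟩ : ∃ L, L = Real.log N := ⟨_, rfl⟩
  obtain ⟨x, hx⟩ : ∃ x, x = (N : ℝ) ^ (1 + ε) := ⟨_, rfl⟩
  have x1 : 4 * N ≤ x := by
    rw [hx, Real.rpow_add (by linarith), Real.rpow_one]; nlinarith
  have x2 : Real.log x = (1 + ε) * L := by rw [hx, hL, Real.log_rpow (by linarith)]
  have m1 : (sh ε N : ℝ) ≤ x := by rw [hx]; exact Nat.floor_le (by positivity)
  have m2 : x < sh ε N + 1 := by rw [hx]; exact Nat.lt_floor_add_one _
  have l2 := Real.log_two_lt_d9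
  have w1 : (2 + 2 * ε) * L - 2 ≤ Real.log (((sh ε N - N) ^ 2 + 1 : ℕ) : ℝ) := by
    have : (x / 2) ^ 2 ≤ (((sh ε N - N) ^ 2 + 1 : ℕ) : ℝ) := by
      push_cast [sh_ge ε hε N N1]
      nlinarith only [x1, m2, N1']
    refine le_trans ?_ (Real.log_le_log (by nlinarith only [x1, N1']) this)
    rw [Real.log_pow, Real.log_div (by linarith) (by norm_num), x2]
    push_cast; linarith
  have w2 : Real.log ((5 * sh ε N ^ 2 : ℕ) : ℝ) ≤ (4 + 2 * ε) * L := by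
    have h0 : (0 : ℝ) < sh ε N := by linarith
    have h5 : ((5 * sh ε N ^ 2 : ℕ) : ℝ) ≤ Real.exp 2 * x ^ 2 := by
      have e : Real.exp 2 = Real.exp 1 * Real.exp 1 := by rw [← Real.exp_add]; norm_num
      have e2 : 5 ≤ Real.exp 2 := by nlinarith only [e, Real.exp_one_gt_d9]
      push_cast; gcongr
    refine (Real.log_le_log (by push_cast; positivity) h5).trans ?_
    rw [Real.log_mul (by positivity) (by nlinarith only [x1, N1']), Real.log_exp, Real.log_pow, x2]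
    push_cast; rw [← hL] at k2; linarith [k2.1]
  have w3 : Real.log (2 * (((t : ℝ) + 2) * s) ^ 2) ≤ 2 * L + 4 := by
    have hs : (1 : ℝ) ≤ s := by exact_mod_cast k6
    have hNs : (N : ℝ) = t * s := by rw [hN]; push_cast; ring
    have : 2 * (((t : ℝ) + 2) * s) ^ 2 ≤ 2 ^ 5 * N ^ 2 := by
      have h7 : ((t : ℝ) + 2) * s ≤ 4 * N := by rw [hNs]; nlinarith only [hs, t1]
      nlinarith only [h7,
        mul_pos (show (0 : ℝ) < t + 2 by linarith) (show (0 : ℝ) < s by linarith)]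
    refine (Real.log_le_log (by positivity) this).trans ?_
    rw [Real.log_mul (by positivity) (by positivity), Real.log_pow, Real.log_pow, hL]
    push_cast; linarith
  have w4 : (Nat.primeCounting (2 * (a * N) ^ 2) : ℝ) * L ≤ 2 * a ^ 2 * N ^ 2 := by
    have a1 : (1 : ℝ) ≤ a := by exact_mod_cast ha
    have h1 : 2 * L ≤ Real.log ((2 * (a * N) ^ 2 : ℕ) : ℝ) := by
      have : (N : ℝ) ^ 2 ≤ ((2 * (a * N) ^ 2 : ℕ) : ℝ) := by
        push_cast
        have h7 : (N : ℝ) ^ 2 ≤ (a * N) ^ 2 := by gcongr; nlinarith only [a1, N1']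
        nlinarith only [h7, sq_nonneg (N : ℝ)]
      refine le_trans ?_ (Real.log_le_log (by positivity) this)
      rw [Real.log_pow, hL]; norm_num
    rw [← hL] at k2
    rw [le_div_iff₀ (by linarith [k2.1])] at k1
    have h2 : Real.log 4 = 2 * Real.log 2 := by
      rw [show (4 : ℝ) = 2 ^ 2 by norm_num, Real.log_pow]; norm_num
    have h3 := mul_le_mul_of_nonneg_left h1
      (show (0 : ℝ) ≤ Nat.primeCounting (2 * (a * N) ^ 2) by positivity)
    push_cast at k1 h3 ⊢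
    nlinarith only [sq_nonneg ((a : ℝ) * N), k1, h2, h3, l2]
  have w5 : (2 * (((t : ℝ) + 2) * s)) ^ 2 ≤ 4 * (1 + ε / 2) * N ^ 2 := by
    have hNs : (N : ℝ) = t * s := by rw [hN]; push_cast; ring
    rw [hNs]; nlinarith only [sq_nonneg (s : ℝ), t2]
  have w6 : 4 * (1 - c) * N ^ 2 ≤ ((Phi ε N).card : ℝ) := by
    rw [Phi_eq, card_Sq]
    push_cast [show 1 ≤ 2 * N by omega]
    rw [div_le_iff₀ c0] at k4
    nlinarith only [k4, N1']
  rw [← hL] at k2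
  obtain ⟨L1, L2⟩ := k2
  rw [← hc]
  obtain ⟨S, hS⟩ : ∃ S : ℝ, S = (((Phi ε N).filter
    (fun n => ∀ q, Prime q → q ∣ n → nm q ≤ 2 * (a * N) ^ 2)).card : ℝ) := ⟨_, rfl⟩
  have S0 : 0 ≤ S := by rw [hS]; positivity
  rw [← hS] at hm ⊢
  have v1 : (2 * (t : ℝ) + 1) ^ 2 * (2 * Nat.primeCounting (2 * (a * N) ^ 2)) *
      Real.log ((5 * sh ε N ^ 2 : ℕ) : ℝ) ≤ C * N ^ 2 := by
    calc _ ≤ (2 * (t : ℝ) + 1) ^ 2 * (2 * Nat.primeCounting (2 * (a * N) ^ 2)) *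
          ((4 + 2 * ε) * L) := by gcongr
      _ = (2 * (t : ℝ) + 1) ^ 2 * 2 * (4 + 2 * ε) * (Nat.primeCounting (2 * (a * N) ^ 2) * L) := by
          ring
      _ ≤ (2 * (t : ℝ) + 1) ^ 2 * 2 * (4 + 2 * ε) * (2 * a ^ 2 * N ^ 2) := by gcongr
      _ = _ := by rw [hC]; ring
  have v2 : (2 * (((t : ℝ) + 2) * s)) ^ 2 * Real.log (2 * (((t : ℝ) + 2) * s) ^ 2) ≤
      4 * (1 + ε / 2) * N ^ 2 * (2 * L + 4) := by
    refine le_trans (mul_le_mul_of_nonneg_left w3 (by positivity)) ?_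
    gcongr
  have v3 := mul_le_mul_of_nonneg_left w1 S0
  have L3 : C / 4 + 4 * (1 + ε / 2) + 2 ≤ ε / 2 * L := by
    have := mul_le_mul_of_nonneg_left L2 (show 0 ≤ ε / 2 by positivity)
    have e : ε / 2 * (2 / ε * (C / 4 + 4 * (1 + ε / 2) + 2)) = C / 4 + 4 * (1 + ε / 2) + 2 := by
      field_simp
    linarith
  have p0 : 0 < (2 + 2 * ε) * L - 2 := by nlinarith only [hε, L1]
  have v4 : C + 4 * (1 + ε / 2) * (2 * L + 4) ≤ 4 * (1 - c) ^ 2 * ((2 + 2 * ε) * L - 2) := by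
    have h1 : (1 - 2 * c) * ((2 + 2 * ε) * L - 2) ≤ (1 - c) ^ 2 * ((2 + 2 * ε) * L - 2) := by
      gcongr; nlinarith only [c0]
    have h2 : (1 - 2 * c) * ((2 + 2 * ε) * L) = (2 + 3 * ε / 2) * L := by
      linear_combination (-L / 2) * c1
    nlinarith only [h1, h2, L3, c0]
  have v5 : S * ((2 + 2 * ε) * L - 2) ≤ (4 * (1 - c) ^ 2 * N ^ 2) * ((2 + 2 * ε) * L - 2) := by
    nlinarith only [mul_le_mul_of_nonneg_right v4 (sq_nonneg (N : ℝ)), v1, v2, v3, hm]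
  have v6 := le_of_mul_le_mul_right v5 p0
  nlinarith only [v6, w6, c2]

open Classical in
theorem kill (ε : ℝ) (hε : 0 < ε) (a B : ℕ) : ∃ (N : ℕ) (K : Finset GaussianInt), 0 < a →
    B ≤ N ∧ 1 ≤ N ∧ (∀ q ∈ K, Prime q ∧ 2 * (a * N) ^ 2 < nm q) ∧ K.card ≤ 4 * N ^ 2 ∧
    (((Phi ε N).filter (fun n => ¬ ∃ q ∈ K, q ∣ n)).card : ℝ) ≤
      (1 - ε / (8 * (1 + ε))) * (Phi ε N).card := by
  by_cases ha : 0 < a
  swap
  · exact ⟨0, ∅, fun h => absurd h ha⟩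
  obtain ⟨N, h1, h2, h3⟩ := smooth ε hε a B ha
  have hex : ∀ n : GaussianInt, ∃ q, ¬ (∀ q, Prime q → q ∣ n → nm q ≤ 2 * (a * N) ^ 2) →
      Prime q ∧ q ∣ n ∧ 2 * (a * N) ^ 2 < nm q := by
    intro n
    by_cases h : ∀ q, Prime q → q ∣ n → nm q ≤ 2 * (a * N) ^ 2
    · exact ⟨0, fun h' => absurd h h'⟩
    · push Not at h
      obtain ⟨q, hq⟩ := h
      exact ⟨q, fun _ => hq⟩
  choose g hg using hex
  refine ⟨N, ((Phi ε N).filter
    (fun n => ¬ ∀ q, Prime q → q ∣ n → nm q ≤ 2 * (a * N) ^ 2)).image g, fun _ =>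
    ⟨h1, h2, ?_, ?_, ?_⟩⟩
  · intro q hq
    obtain ⟨n, hn, rfl⟩ := mem_image.1 hq
    have := hg n (mem_filter.1 hn).2
    exact ⟨this.1, this.2.2⟩
  · refine card_image_le.trans ((card_filter_le _ _).trans ?_)
    rw [Phi_eq, card_Sq]
    calc (2 * N - 1) ^ 2 ≤ (2 * N) ^ 2 := Nat.pow_le_pow_left (by omega) 2
      _ = 4 * N ^ 2 := by ring
  · refine le_trans (Nat.cast_le.2 (card_le_card fun n hn => ?_)) h3
    obtain ⟨n1, n2⟩ := mem_filter.1 hn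
    refine mem_filter.2 ⟨n1, ?_⟩
    by_contra hc
    exact n2 ⟨g n, mem_image.2 ⟨n, mem_filter.2 ⟨n1, hc⟩, rfl⟩, (hg n hc).2.1⟩

theorem result : ∀ ε : ℝ, 0 < ε → ∃ f : GaussianInt → ℝ,
    (∀ n, f n = 0 ∨ f n = 1) ∧ f 1 = 1 ∧ (∀ m n, m ≠ 0 → n ≠ 0 → f (m * n) = f m * f n) ∧
    (∃ C : ℝ, ∀ n, n ≠ 0 → |f n| ≤ C) ∧
    ¬ ∃ l : ℝ, Tendsto (avg ε f) atTop (𝓝 l) := by
  classical
  intro ε hε
  obtain ⟨c, hc⟩ : ∃ c, c = ε / (8 * (1 + ε)) := ⟨_, rfl⟩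
  have c0 : 0 < c := by rw [hc]; positivity
  choose NN KK hK using kill ε hε
  rw [← hc] at hK
  obtain ⟨a, ha⟩ := exists_nat_ge (144 / c + 1)
  have a1 : (1 : ℝ) ≤ a := by linarith [show 0 < 144 / c by positivity]
  have a0 : 0 < a := by exact_mod_cast (show (0 : ℝ) < a by linarith)
  obtain ⟨A, hA⟩ : ∃ A : ℕ → ℕ, A = fun j => a * 2 ^ j := ⟨_, rfl⟩
  have A0 : ∀ j, 0 < A j := fun j => by rw [hA]; positivity
  have Am : Monotone A := fun i j h => by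
    rw [hA]; exact Nat.mul_le_mul_left _ (Nat.pow_le_pow_right (by norm_num) h)
  obtain ⟨B, B0, Bs⟩ : ∃ B : ℕ → ℕ, B 0 = 1 ∧ ∀ j, B (j + 1) =
      5 * sh ε (A j * NN (A j) (B j)) ^ 2 + NN (A j) (B j) + 1 :=
    ⟨fun j => Nat.rec 1 (fun j b => 5 * sh ε (A j * NN (A j) b) ^ 2 + NN (A j) b + 1) j,
      rfl, fun _ => rfl⟩
  obtain ⟨N, hN⟩ : ∃ N : ℕ → ℕ, N = fun j => NN (A j) (B j) := ⟨_, rfl⟩
  obtain ⟨K, hKK⟩ : ∃ K : ℕ → Finset GaussianInt, K = fun j => KK (A j) (B j) := ⟨_, rfl⟩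
  have H : ∀ j, B j ≤ N j ∧ 1 ≤ N j ∧ (∀ q ∈ K j, Prime q ∧ 2 * (A j * N j) ^ 2 < nm q) ∧
      (K j).card ≤ 4 * N j ^ 2 ∧
      (((Phi ε (N j)).filter (fun n => ¬ ∃ q ∈ K j, q ∣ n)).card : ℝ) ≤
        (1 - c) * (Phi ε (N j)).card := fun j => by
    rw [hN, hKK]; exact hK _ _ (A0 j)
  have Bs' : ∀ j, B (j + 1) = 5 * sh ε (A j * N j) ^ 2 + N j + 1 := by rw [hN]; exact Bs
  have Nm : StrictMono N := strictMono_nat_of_lt_succ fun j => by
    have := (H (j + 1)).1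
    have := Bs' j
    omega
  have AN : ∀ j, N j ≤ A j * N j := fun j => Nat.le_mul_of_pos_left _ (A0 j)
  obtain ⟨f, hf⟩ : ∃ f : GaussianInt → ℝ, f = fun n => if ∃ j, ∃ q ∈ K j, q ∣ n then 0 else 1 :=
    ⟨_, rfl⟩
  have f01 : ∀ n, f n = 0 ∨ f n = 1 := fun n => by rw [hf]; simp only; split_ifs <;> simp
  have cp : ∀ M : ℕ, 1 ≤ M → (M : ℝ) ^ 2 ≤ (Phi ε M).card := fun M hM => by
    rw [Phi_eq, card_Sq]; exact_mod_cast Nat.pow_le_pow_left (by omega) 2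
  refine ⟨f, f01, ?_, ?_, ⟨1, fun n _ => by rcases f01 n with h | h <;> simp [h]⟩, ?_⟩
  · rw [hf]
    refine if_neg ?_
    rintro ⟨j, q, hq, hd⟩
    exact ((H j).2.2.1 q hq).1.not_dvd_one hd
  · intro m n _ _
    rw [hf]
    simp only
    by_cases h1 : ∃ j, ∃ q ∈ K j, q ∣ m
    · obtain ⟨j, q, hq, hd⟩ := h1
      rw [if_pos ⟨j, q, hq, hd.mul_right n⟩, if_pos ⟨j, q, hq, hd⟩, zero_mul]
    by_cases h2 : ∃ j, ∃ q ∈ K j, q ∣ n
    · obtain ⟨j, q, hq, hd⟩ := h2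
      rw [if_pos ⟨j, q, hq, hd.mul_left m⟩, if_pos (c := ∃ j, ∃ q ∈ K j, q ∣ n) ⟨j, q, hq, hd⟩,
        mul_zero]
    rw [if_neg h1, if_neg h2, if_neg, mul_one]
    rintro ⟨j, q, hq, hd⟩
    rcases ((H j).2.2.1 q hq).1.dvd_or_dvd hd with h | h
    · exact h1 ⟨j, q, hq, h⟩
    · exact h2 ⟨j, q, hq, h⟩
  rintro ⟨l, hl⟩
  have u1 : ∀ j, avg ε f (N j) ≤ 1 - c := by
    intro j
    have hp : (0 : ℝ) < (Phi ε (N j)).card :=
      lt_of_lt_of_le (pow_pos (Nat.cast_pos.2 (H j).2.1) 2) (cp _ (H j).2.1)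
    rw [avg, div_le_iff₀ hp]
    refine le_trans ?_ (H j).2.2.2.2
    rw [card_filter]
    push_cast
    refine sum_le_sum fun n _ => ?_
    rw [hf]
    simp only
    by_cases h : ∃ q ∈ K j, q ∣ n
    · rw [if_pos ⟨j, h⟩, if_neg (not_not.2 h)]
    · rw [if_pos h]; split_ifs <;> norm_num
  have u2 : ∀ j, 1 - c / 2 ≤ avg ε f (A j * N j) := by
    intro j
    obtain ⟨M, hM⟩ : ∃ M, M = A j * N j := ⟨_, rfl⟩
    have M1 : 1 ≤ M := by rw [hM]; exact (H j).2.1.trans (AN j)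
    have hp : (0 : ℝ) < (Phi ε M).card :=
      lt_of_lt_of_le (pow_pos (Nat.cast_pos.2 M1) 2) (cp _ M1)
    rw [← hM, avg, le_div_iff₀ hp]
    have b1 : ∀ n ∈ Phi ε M, 1 - ∑ i ∈ range (j + 1), ∑ q ∈ K i, (if q ∣ n then (1 : ℝ) else 0)
        ≤ f n := by
      intro n hn
      have nn : ∀ i, 0 ≤ ∑ q ∈ K i, (if q ∣ n then (1 : ℝ) else 0) :=
        fun i => sum_nonneg fun q _ => by split_ifs <;> norm_num
      rw [hf]
      simp only
      split_ifs with h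
      · obtain ⟨i, q, hq, hd⟩ := h
        have hb := nm_bd ε hε M M1 n hn
        have hij : i < j + 1 := by
          by_contra hlt
          have h1 := Nm.monotone (show j + 1 ≤ i by omega)
          have h2 := (H (j + 1)).1
          have h3 := Bs' j
          have h4 := ((H i).2.2.1 q hq).2
          have h5 : n ≠ 0 := by
            rintro rfl
            have : nm 0 = 0 := rfl
            omega
          have h6 := nm_le hd h5
          have h7 := AN i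
          have h8 := Nat.le_self_pow (show 2 ≠ 0 by norm_num) (A i * N i)
          rw [← hM] at h3
          omega
        have h1 := single_le_sum (f := fun i => ∑ q ∈ K i, (if q ∣ n then (1 : ℝ) else 0))
          (fun i _ => nn i) (mem_range.2 hij)
        have h2 := single_le_sum (f := fun q => (if q ∣ n then (1 : ℝ) else 0))
          (fun q _ => by split_ifs <;> norm_num) hq
        simp only [if_pos hd] at h2
        linarith
      · linarith [sum_nonneg (s := range (j + 1)) fun i _ => nn i]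
    have b2 : ∀ i ∈ range (j + 1), ∑ n ∈ Phi ε M, ∑ q ∈ K i, (if q ∣ n then (1 : ℝ) else 0) ≤
        c / 4 * M ^ 2 * (1 / 2) ^ i := by
      intro i hi
      rw [sum_comm]
      have hs : 0 < A i * N i := Nat.mul_pos (A0 i) (H i).2.1
      have hsM : A i * N i ≤ M := by
        rw [hM]
        have hij : i ≤ j := Nat.lt_succ_iff.1 (mem_range.1 hi)
        exact Nat.mul_le_mul (Am hij) (Nm.monotone hij)
      have hs' : (0 : ℝ) < A i * N i := by exact_mod_cast hs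
      have b3 : ∀ q ∈ K i, ∑ n ∈ Phi ε M, (if q ∣ n then (1 : ℝ) else 0) ≤
          (3 * M / (A i * N i)) ^ 2 := by
        intro q hq
        have h1 := cell ((⌊(M : ℝ) ^ (1 + ε)⌋ : ℤ) : GaussianInt) q M _ hs ((H i).2.2.1 q hq).2.le
        rw [← Phi_eq] at h1
        have h2 : ((mul (Phi ε M) q : ℕ) : ℝ) = ∑ n ∈ Phi ε M, (if q ∣ n then (1 : ℝ) else 0) := by
          unfold mul; rw [card_filter]; push_cast; rfl
        rw [← h2]
        refine (Nat.cast_le.2 h1).trans ?_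
        push_cast
        gcongr
        have h3 : ((2 * M / (A i * N i) : ℕ) : ℝ) ≤ 2 * M / (A i * N i) := by
          have := Nat.cast_div_le (α := ℝ) (m := 2 * M) (n := A i * N i)
          push_cast at this; exact this
        have h4 : (1 : ℝ) ≤ M / (A i * N i) := by
          rw [le_div_iff₀ hs', one_mul]; exact_mod_cast hsM
        have h5 : (3 : ℝ) * M / (A i * N i) = 2 * M / (A i * N i) + M / (A i * N i) := by ring
        linarith
      refine (sum_le_card_nsmul _ _ _ b3).trans ?_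
      rw [nsmul_eq_mul]
      have h1 : ((K i).card : ℝ) ≤ 4 * N i ^ 2 := by exact_mod_cast (H i).2.2.2.1
      refine (mul_le_mul_of_nonneg_right h1 (by positivity)).trans ?_
      have hNi : (0 : ℝ) < N i := by exact_mod_cast (H i).2.1
      have e : (A i : ℝ) = a * 2 ^ i := by rw [hA]; push_cast; ring
      have h2 : (1 : ℝ) ≤ 2 ^ i := one_le_pow₀ (by norm_num)
      have h3 : 144 ≤ c * a := by
        have := (div_le_iff₀ c0).1 (show 144 / c ≤ a by linarith)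
        linarith
      rw [e, one_div, inv_pow]
      field_simp
      have h4 : 144 ≤ c * a * (a * 2 ^ i) := by nlinarith [mul_le_mul a1 h2 zero_le_one (by linarith)]
      nlinarith
    have b4 := sum_le_sum b1
    rw [sum_sub_distrib, sum_comm] at b4
    have b5 := sum_le_sum b2
    rw [← mul_sum] at b5
    have b6 := sum_geometric_two_le (j + 1)
    have b7 := cp M M1
    simp only [sum_const, nsmul_eq_mul, mul_one] at b4
    have b8 := mul_le_mul_of_nonneg_left b6 (show (0 : ℝ) ≤ c / 4 * M ^ 2 by positivity)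
    nlinarith
  have t1 := le_of_tendsto' (hl.comp Nm.tendsto_atTop) u1
  have t2 := ge_of_tendsto' (hl.comp (tendsto_atTop_mono AN Nm.tendsto_atTop)) u2
  linarith

end Pool.Agent.Results.MP_acc225_nt.No
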